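import Mathlib

/-!
# Words in which every letter occurs at most once

Canonical words (at every node the left factor contains the smallest letter), removal of the
largest letter, depth signs.
-/

set_option autoImplicit false

namespace Pool.Agent.KS6_17.CD

/-- the set of the letters of a nonassociative word -/
def letters : FreeMagma ℕ → Finset ℕ
  | .of i => {i}
  | .mul u v => letters u ∪ letters v

/-- every letter occurs at most once -/
def ML : FreeMagma ℕ → Prop
  | .of _ => True
  | .mul u v => ML u ∧ ML v ∧ Disjoint (letters u) (letters v)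

/-- the smallest letter -/
def mn : FreeMagma ℕ → ℕ
  | .of i => i
  | .mul u v => min (mn u) (mn v)

/-- at every node the left factor has the smaller smallest letter -/
def Can : FreeMagma ℕ → Prop
  | .of _ => True
  | .mul u v => Can u ∧ Can v ∧ mn u < mn v

/-- removal of the letter `j` (which is a right factor) -/
def del (j : ℕ) : FreeMagma ℕ → FreeMagma ℕ
  | .of i => .of i
  | .mul u v => if v = .of j then u else
      if j ∈ letters u then .mul (del j u) v else .mul u (del j v)

/-- the letters of the factor next to `j` -/
def sib (j : ℕ) : FreeMagma ℕ → Finset ℕ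
  | .of _ => ∅
  | .mul u v => if v = .of j then letters u else
      if j ∈ letters u then sib j u else sib j v

/-- insertion of `j` next to the factor with the set `S` of letters -/
def ins (S : Finset ℕ) (j : ℕ) : FreeMagma ℕ → FreeMagma ℕ
  | .of i => if {i} = S then .mul (.of i) (.of j) else .of i
  | .mul u v => if letters u ∪ letters v = S then .mul (.mul u v) (.of j) else
      if S ⊆ letters u then .mul (ins S j u) v else .mul u (ins S j v)

/-- the parity of the depth of the letter `i`, as a sign -/
def dep (i : ℕ) : FreeMagma ℕ → ℤ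
  | .of _ => 1
  | .mul u v => if i ∈ letters u then - dep i u else if i ∈ letters v then - dep i v else 1

/-- the sign which appears when `j` is replaced by a new unit -/
def dlt (j : ℕ) : FreeMagma ℕ → ℤ
  | .of _ => 1
  | .mul u v => if v = .of j then 1 else if j ∈ letters u then - dlt j u else - dlt j v

@[simp] theorem letters_of (i : ℕ) : letters (.of i) = {i} := rfl
@[simp] theorem letters_mul (u v : FreeMagma ℕ) : letters (u * v) = letters u ∪ letters v := rfl
@[simp] theorem ML_mul (u v : FreeMagma ℕ) :
    ML (u * v) ↔ ML u ∧ ML v ∧ Disjoint (letters u) (letters v) := Iff.rfl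
@[simp] theorem Can_mul (u v : FreeMagma ℕ) : Can (u * v) ↔ Can u ∧ Can v ∧ mn u < mn v := Iff.rfl
theorem mn_mul (u v : FreeMagma ℕ) : mn (u * v) = min (mn u) (mn v) := rfl
theorem del_mul (j : ℕ) (u v : FreeMagma ℕ) : del j (u * v) = if v = .of j then u else
      if j ∈ letters u then del j u * v else u * del j v := rfl
theorem sib_mul (j : ℕ) (u v : FreeMagma ℕ) : sib j (u * v) = if v = .of j then letters u else
      if j ∈ letters u then sib j u else sib j v := rfl
theorem ins_mul (S : Finset ℕ) (j : ℕ) (u v : FreeMagma ℕ) : ins S j (u * v) =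
      if letters u ∪ letters v = S then (u * v) * .of j else
      if S ⊆ letters u then ins S j u * v else u * ins S j v := rfl
theorem dep_mul (i : ℕ) (u v : FreeMagma ℕ) : dep i (u * v) =
    if i ∈ letters u then - dep i u else if i ∈ letters v then - dep i v else 1 := rfl
theorem dlt_mul (j : ℕ) (u v : FreeMagma ℕ) : dlt j (u * v) =
    if v = .of j then 1 else if j ∈ letters u then - dlt j u else - dlt j v := rfl

theorem letters_nonempty : ∀ w : FreeMagma ℕ, (letters w).Nonempty
  | .of i => ⟨i, by simp⟩
  | .mul u v => by
    obtain ⟨i, hi⟩ := letters_nonempty u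
    exact ⟨i, by simp [hi]⟩

theorem mn_mem : ∀ w : FreeMagma ℕ, mn w ∈ letters w
  | .of i => by simp [mn]
  | .mul u v => by
    have hu := mn_mem u
    have hv := mn_mem v
    simp only [FreeMagma.mul_eq, mn_mul, letters_mul, Finset.mem_union]
    rcases min_choice (mn u) (mn v) with h | h <;> rw [h]
    · exact Or.inl hu
    · exact Or.inr hv

theorem mn_le : ∀ (w : FreeMagma ℕ) (i : ℕ), i ∈ letters w → mn w ≤ i
  | .of i, j, h => by simp at h; simp [mn, h]
  | .mul u v, j, h => by
    simp only [FreeMagma.mul_eq, letters_mul, Finset.mem_union] at h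
    simp only [FreeMagma.mul_eq, mn_mul]
    rcases h with h | h
    · exact (min_le_left _ _).trans (mn_le u j h)
    · exact (min_le_right _ _).trans (mn_le v j h)

theorem mn_unique {w : FreeMagma ℕ} {a : ℕ} (ha : a ∈ letters w) (h : ∀ i ∈ letters w, a ≤ i) :
    mn w = a := le_antisymm (mn_le w a ha) (h _ (mn_mem w))

theorem card_pos (w : FreeMagma ℕ) : 0 < (letters w).card := (letters_nonempty w).card_pos

theorem dep_sq (i : ℕ) : ∀ w : FreeMagma ℕ, dep i w = 1 ∨ dep i w = -1
  | .of _ => Or.inl rfl
  | .mul u v => by
    simp only [dep]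
    split_ifs
    · rcases dep_sq i u with h | h <;> simp [h]
    · rcases dep_sq i v with h | h <;> simp [h]
    · simp

theorem dlt_sq (i : ℕ) : ∀ w : FreeMagma ℕ, dlt i w = 1 ∨ dlt i w = -1
  | .of _ => Or.inl rfl
  | .mul u v => by
    simp only [dlt]
    split_ifs
    · simp
    · rcases dlt_sq i u with h | h <;> simp [h]
    · rcases dlt_sq i v with h | h <;> simp [h]

theorem eq_of {w : FreeMagma ℕ} {j : ℕ} (hw : ML w) (h : letters w = {j}) : w = .of j := by
  cases w with
  | of i => simp at h; rw [h]
  | mul u v =>
    exfalso
    obtain ⟨_, _, hd⟩ := hw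
    obtain ⟨a, ha⟩ := letters_nonempty u
    obtain ⟨b, hb⟩ := letters_nonempty v
    have h1 : a = j := by
      have : a ∈ letters (.mul u v) := by simp [ha]
      rw [h] at this; simpa using this
    have h2 : b = j := by
      have : b ∈ letters (.mul u v) := by simp [hb]
      rw [h] at this; simpa using this
    subst h1
    subst h2
    exact Finset.disjoint_left.1 hd ha hb

/-- the structure of a canonical word with largest letter `j` -/
theorem cases_max {u v : FreeMagma ℕ} {j : ℕ} (hc : Can (u * v)) (hm : ML (u * v))
    (hj : j ∈ letters (u * v)) (hmax : ∀ i ∈ letters (u * v), i ≤ j) :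
    v = .of j ∨ (v ≠ .of j ∧ j ∈ letters u ∧ j ∉ letters v ∧ u ≠ .of j) ∨
      (v ≠ .of j ∧ j ∉ letters u ∧ j ∈ letters v) := by
  by_cases hv : v = .of j
  · exact Or.inl hv
  right
  by_cases hu : j ∈ letters u
  · left
    refine ⟨hv, hu, fun h => Finset.disjoint_left.1 hm.2.2 hu h, fun h => ?_⟩
    have h1 : mn u = j := by rw [h]; rfl
    have h2 : mn v ≤ j := hmax _ (by simp [mn_mem])
    have := hc.2.2
    omega
  · right
    refine ⟨hv, hu, ?_⟩
    simp only [letters_mul, Finset.mem_union] at hj
    exact hj.resolve_left hu

/-- the properties of the removal of the largest letter -/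
theorem del_props : ∀ (w : FreeMagma ℕ) (j : ℕ), Can w → ML w → j ∈ letters w →
    (∀ i ∈ letters w, i ≤ j) → w ≠ .of j →
    letters (del j w) = (letters w).erase j ∧ Can (del j w) ∧ ML (del j w) ∧
      mn (del j w) = mn w ∧ (sib j w).Nonempty ∧ sib j w ⊆ letters (del j w) ∧
      ins (sib j w) j (del j w) = w ∧
      ∀ i, i ≠ j → i ∈ letters w →
        (i ∈ sib j w → dep i w = - dep i (del j w)) ∧ (i ∉ sib j w → dep i w = dep i (del j w))
  | .of i, j, _, _, hj, _, hne => by
    simp at hj
    exact absurd (by rw [hj]) hne
  | .mul u v, j, hc, hm, hj, hmax, _ => by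
    simp only [FreeMagma.mul_eq] at *
    rcases cases_max hc hm hj hmax with h | ⟨hv, hju, hjv, hu⟩ | ⟨hv, hju, hjv⟩
    · subst h
      have hju : j ∉ letters u := fun h => Finset.disjoint_left.1 hm.2.2 h (by simp)
      have e1 : del j (u * .of j) = u := by simp [del_mul]
      have e2 : sib j (u * .of j) = letters u := by simp [sib_mul]
      rw [e1, e2]
      refine ⟨?_, hc.1, hm.1, ?_, letters_nonempty u, Finset.Subset.refl _, ?_, ?_⟩
      · ext a
        simp only [letters_mul, letters_of, Finset.mem_erase, Finset.mem_union,
          Finset.mem_singleton]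
        constructor
        · intro ha
          exact ⟨fun h => hju (h ▸ ha), Or.inl ha⟩
        · rintro ⟨h1, h2 | h2⟩
          · exact h2
          · exact absurd h2 h1
      · have h1 := hc.2.2
        rw [mn_mul]
        exact (min_eq_left h1.le).symm
      · cases u with
        | of i => simp [ins]
        | mul a b => simp [ins_mul]
      · intro i hi hiw
        simp only [letters_mul, letters_of, Finset.mem_union, Finset.mem_singleton] at hiw
        have hiu := hiw.resolve_right hi
        simp [dep_mul, hiu]
    · obtain ⟨h1, h2, h3, h4, h5, h6, h7, h8⟩ := del_props u j hc.1 hm.1 hju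
        (fun i hi => hmax i (by simp [hi])) hu
      have e1 : del j (u * v) = del j u * v := by simp [del_mul, hv, hju]
      have e2 : sib j (u * v) = sib j u := by simp [sib_mul, hv, hju]
      rw [e1, e2]
      have hdv : Disjoint (letters (del j u)) (letters v) := by
        rw [h1]
        exact Finset.disjoint_of_subset_left (Finset.erase_subset _ _) hm.2.2
      refine ⟨?_, ⟨h2, hc.2.1, by rw [h4]; exact hc.2.2⟩, ⟨h3, hm.2.1, hdv⟩, ?_, h5, ?_, ?_, ?_⟩
      · rw [letters_mul, letters_mul, h1, Finset.erase_union_distrib, Finset.erase_eq_of_notMem hjv]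
      · simp only [mn_mul, h4]
      · exact h6.trans (by simp)
      · have hne : letters (del j u) ∪ letters v ≠ sib j u := by
          intro h
          obtain ⟨b, hb⟩ := letters_nonempty v
          have : b ∈ sib j u := by rw [← h]; simp [hb]
          exact Finset.disjoint_left.1 hdv (h6 this) hb
        simp only [ins_mul, if_neg hne, if_pos h6, h7]
      · intro i hi hiw
        by_cases hiu : i ∈ letters u
        · have hid : i ∈ letters (del j u) := by rw [h1]; simp [hi, hiu]
          have e := h8 i hi hiu
          simp only [dep_mul, if_pos hiu, if_pos hid]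
          exact ⟨fun h => by rw [e.1 h], fun h => by rw [e.2 h]⟩
        · have hid : i ∉ letters (del j u) := by rw [h1]; simp [hiu]
          have hiv : i ∈ letters v := by
            simp only [letters_mul, Finset.mem_union] at hiw
            exact hiw.resolve_left hiu
          have his : i ∉ sib j u := fun h => hid (h6 h)
          simp [dep_mul, hiu, hid, hiv, his]
    · obtain ⟨h1, h2, h3, h4, h5, h6, h7, h8⟩ := del_props v j hc.2.1 hm.2.1 hjv
        (fun i hi => hmax i (by simp [hi])) hv
      have e1 : del j (u * v) = u * del j v := by simp [del_mul, hv, hju]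
      have e2 : sib j (u * v) = sib j v := by simp [sib_mul, hv, hju]
      rw [e1, e2]
      have hdv : Disjoint (letters u) (letters (del j v)) := by
        rw [h1]
        exact Finset.disjoint_of_subset_right (Finset.erase_subset _ _) hm.2.2
      refine ⟨?_, ⟨hc.1, h2, by rw [h4]; exact hc.2.2⟩, ⟨hm.1, h3, hdv⟩, ?_, h5, ?_, ?_, ?_⟩
      · rw [letters_mul, letters_mul, h1, Finset.erase_union_distrib, Finset.erase_eq_of_notMem hju]
      · simp only [mn_mul, h4]
      · exact h6.trans (by simp)
      · have hne : letters u ∪ letters (del j v) ≠ sib j v := by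
          intro h
          obtain ⟨b, hb⟩ := letters_nonempty u
          have : b ∈ sib j v := by rw [← h]; simp [hb]
          exact Finset.disjoint_left.1 hdv hb (h6 this)
        have hns : ¬ sib j v ⊆ letters u := by
          intro h
          obtain ⟨b, hb⟩ := h5
          exact Finset.disjoint_left.1 hdv (h hb) (h6 hb)
        simp only [ins_mul, if_neg hne, if_neg hns, h7]
      · intro i hi hiw
        by_cases hiu : i ∈ letters u
        · have hid : i ∉ letters (del j v) := fun h => Finset.disjoint_left.1 hdv hiu h
          have his : i ∉ sib j v := fun h => hid (h6 h)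
          simp [dep_mul, hiu, his]
        · have hiv : i ∈ letters v := by
            simp only [letters_mul, Finset.mem_union] at hiw
            exact hiw.resolve_left hiu
          have hid : i ∈ letters (del j v) := by rw [h1]; simp [hi, hiv]
          have e := h8 i hi hiv
          simp only [dep_mul, if_neg hiu, if_pos hiv, if_pos hid]
          exact ⟨fun h => by rw [e.1 h], fun h => by rw [e.2 h]⟩

/-! ### the canonical form -/

/-- the canonical word of a word -/
def can : FreeMagma ℕ → FreeMagma ℕ
  | .of i => .of i
  | .mul u v => if mn u < mn v then .mul (can u) (can v) else .mul (can v) (can u)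

/-- the sign of the canonical form -/
def sg : FreeMagma ℕ → ℤ
  | .of _ => 1
  | .mul u v => if mn u < mn v then sg u * sg v else -(sg u * sg v)

theorem can_mul (u v : FreeMagma ℕ) :
    can (u * v) = if mn u < mn v then can u * can v else can v * can u := rfl

theorem sg_mul (u v : FreeMagma ℕ) :
    sg (u * v) = if mn u < mn v then sg u * sg v else -(sg u * sg v) := rfl

theorem can_props : ∀ w : FreeMagma ℕ, ML w →
    letters (can w) = letters w ∧ mn (can w) = mn w ∧ Can (can w) ∧ ML (can w)
  | .of i, _ => ⟨rfl, rfl, trivial, trivial⟩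
  | .mul u v, h => by
    simp only [FreeMagma.mul_eq] at *
    obtain ⟨a1, a2, a3, a4⟩ := can_props u h.1
    obtain ⟨b1, b2, b3, b4⟩ := can_props v h.2.1
    by_cases hlt : mn u < mn v
    · have e : can (u * v) = can u * can v := by simp [can_mul, hlt]
      rw [e]
      refine ⟨by simp [a1, b1], by simp [mn_mul, a2, b2], ⟨a3, b3, by rw [a2, b2]; exact hlt⟩,
        ⟨a4, b4, by rw [a1, b1]; exact h.2.2⟩⟩
    · have e : can (u * v) = can v * can u := by simp [can_mul, hlt]
      have hne : mn u ≠ mn v := fun h' =>
        Finset.disjoint_left.1 h.2.2 (mn_mem u) (h' ▸ mn_mem v)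
      rw [e]
      refine ⟨by simp [a1, b1, Finset.union_comm], by simp [mn_mul, a2, b2, min_comm],
        ⟨b3, a3, by rw [a2, b2]; omega⟩, ⟨b4, a4, by rw [a1, b1]; exact h.2.2.symm⟩⟩

end Pool.Agent.KS6_17.CD
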