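import Mathlib
import Pool.Graph.R_pool_sql_team_ae5b0c61.Results.MP_68720f_al.NotAdmissible
import Pool.Agent.KS6_17.CD.Words

/-!
# Evaluation of words in the Cayley-Dickson algebras
-/

set_option autoImplicit false

namespace Pool.Agent.KS6_17.CD

open Pool.Agent.Results.MP_68720f_al.NotAdmissible

section

variable {R : Type} [CommRing R] (α : R) (γ : ℕ → R)

theorem conj_mul (k : ℕ) : ∀ x y : CD R k,
    conj k (mul α γ k x y) = mul α γ k (conj k y) (conj k x) := by
  induction k with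
  | zero =>
    intro x y
    apply ext0 <;> simp only [mul0_1, mul0_2, conj0_1, conj0_2] <;> ring
  | succ k ih =>
    intro x y
    apply extS
    · simp only [mulS_1, conjS_1, conjS_2, conj_add, conj_smul, ih, conj_conj, conj_neg,
        neg_mul', mul_neg', neg_neg]
    · simp only [mulS_2, conjS_1, conjS_2, conj_conj, neg_mul', mul_neg', neg_add]
      abel

/-- all words with distinct letters have imaginary values -/
def Good (k : ℕ) (x : ℕ → CD R k) : Prop :=
  ∀ w, ML w → conj k (ev α γ k x w) = - ev α γ k x w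

variable {α γ}

theorem Good.anti {k : ℕ} {x : ℕ → CD R k} (hx : Good α γ k x) {u v : FreeMagma ℕ}
    (h : ML (u * v)) : mul α γ k (ev α γ k x v) (ev α γ k x u) =
      - mul α γ k (ev α γ k x u) (ev α γ k x v) := by
  have h1 := hx _ h
  rw [ev_mul, conj_mul, hx _ h.1, hx _ h.2.1, neg_mul', mul_neg', neg_neg] at h1
  exact h1

theorem Good.can_ev {k : ℕ} {x : ℕ → CD R k} (hx : Good α γ k x) : ∀ w : FreeMagma ℕ, ML w →
    ev α γ k x w = ((sg w : ℤ) : R) • ev α γ k x (can w)
  | .of i, _ => by simp [sg, can]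
  | .mul u v, h => by
    simp only [FreeMagma.mul_eq] at *
    have hu := hx.can_ev u h.1
    have hv := hx.can_ev v h.2.1
    have hcu := can_props u h.1
    have hcv := can_props v h.2.1
    by_cases hlt : mn u < mn v
    · rw [can_mul, sg_mul, if_pos hlt, if_pos hlt, ev_mul, ev_mul]
      conv_lhs => rw [hu, hv]
      rw [(mul_smul' _ _ _ _ _ _).1, (mul_smul' _ _ _ _ _ _).2, smul_smul]
      push_cast
      rw [mul_comm]
    · rw [can_mul, sg_mul, if_neg hlt, if_neg hlt, ev_mul, ev_mul]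
      conv_lhs => rw [hu, hv]
      rw [(mul_smul' _ _ _ _ _ _).1, (mul_smul' _ _ _ _ _ _).2, smul_smul]
      have hm : ML (can u * can v) := ⟨hcu.2.2.2, hcv.2.2.2, by
        rw [hcu.1, hcv.1]; exact h.2.2⟩
      rw [hx.anti hm]
      push_cast
      rw [neg_smul_neg, mul_comm]

end

section

variable {K : Type} [Field K] {α : K} {γ : ℕ → K}

/-- restriction: `j` becomes the new unit -/
def rst {k : ℕ} (j : ℕ) (x : ℕ → CD K k) : ℕ → CD K (k + 1) :=
  fun i => if i = j then pS 0 (one k) else pS (x i) 0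

theorem ev_rst_notMem {k : ℕ} (j : ℕ) (x : ℕ → CD K k) : ∀ w : FreeMagma ℕ, j ∉ letters w →
    ev α γ (k + 1) (rst j x) w = pS (ev α γ k x w) 0
  | .of i, h => by
    have : i ≠ j := fun h' => h (by simp [h'])
    change rst j x i = pS (x i) 0
    simp [rst, this]
  | .mul u v, h => by
    simp only [FreeMagma.mul_eq, letters_mul, Finset.mem_union, not_or] at *
    rw [ev_mul, ev_rst_notMem j x u h.1, ev_rst_notMem j x v h.2, ev_mul]
    apply extS
    · simp [mulS_1, pS_1, pS_2, conj_zero, mul_zero', zero_mul']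
    · simp [mulS_2, pS_1, pS_2, mul_zero', zero_mul']

theorem ev_rst_fst {k : ℕ} (j : ℕ) (x : ℕ → CD K k) : ∀ w : FreeMagma ℕ, ML w → j ∈ letters w →
    (ev α γ (k + 1) (rst j x) w).1 = 0
  | .of i, _, h => by
    have : i = j := by simp at h; exact h.symm
    change (rst j x i).1 = 0
    simp [rst, this, pS]
  | .mul u v, hm, h => by
    simp only [FreeMagma.mul_eq, letters_mul, Finset.mem_union] at *
    by_cases hu : j ∈ letters u
    · have hv : j ∉ letters v := fun h' => Finset.disjoint_left.1 hm.2.2 hu h'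
      rw [ev_mul, ev_rst_notMem j x v hv]
      have := ev_rst_fst j x u hm.1 hu
      rw [mulS_1, this, pS_1, pS_2, conj_zero, zero_mul', zero_mul', smul_zero, add_zero]
    · have hv : j ∈ letters v := h.resolve_left hu
      rw [ev_mul, ev_rst_notMem j x u hu]
      have := ev_rst_fst j x v hm.2.1 hv
      rw [mulS_1, this, pS_1, pS_2, mul_zero', mul_zero', smul_zero, add_zero]

theorem Good.rst {k : ℕ} {x : ℕ → CD K k} (hx : Good α γ k x) (j : ℕ) :
    Good α γ (k + 1) (rst j x) := by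
  intro w hw
  by_cases hj : j ∈ letters w
  · have h1 := ev_rst_fst (α := α) (γ := γ) j x w hw hj
    apply extS
    · rw [conjS_1, h1, negS_1, h1, conj_zero, neg_zero]
    · rw [conjS_2, negS_2]
  · rw [ev_rst_notMem j x w hj]
    apply extS
    · rw [conjS_1, negS_1, pS_1, hx w hw]
    · rw [conjS_2, negS_2]

/-- the value of a canonical word, `j` the largest letter -/
theorem ev_rst_snd {k : ℕ} {x : ℕ → CD K k} (hx : Good α γ k x) (j : ℕ) :
    ∀ w : FreeMagma ℕ, Can w → ML w → j ∈ letters w → (∀ i ∈ letters w, i ≤ j) → w ≠ .of j →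
    (ev α γ (k + 1) (Pool.Agent.KS6_17.CD.rst j x) w).2 =
      ((dlt j w : ℤ) : K) • ev α γ k x (del j w)
  | .of i, _, _, hj, _, hne => by
    simp at hj
    exact absurd (by rw [hj]) hne
  | .mul u v, hc, hm, hj, hmax, hne => by
    simp only [FreeMagma.mul_eq] at *
    have hdp := del_props (u * v) j hc hm hj hmax hne
    rcases cases_max hc hm hj hmax with h | ⟨hv, hju, hjv, hu⟩ | ⟨hv, hju, hjv⟩
    · subst h
      have hju : j ∉ letters u := fun h => Finset.disjoint_left.1 hm.2.2 h (by simp)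
      rw [ev_mul, ev_rst_notMem j x u hju, del_mul, dlt_mul, if_pos rfl, if_pos rfl]
      have : ev α γ (k + 1) (Pool.Agent.KS6_17.CD.rst j x) (.of j) = pS 0 (one k) := by
        change Pool.Agent.KS6_17.CD.rst j x j = _
        simp [Pool.Agent.KS6_17.CD.rst]
      rw [this, mulS_2, pS_1, pS_2, pS_1, pS_2, (mul_one' _ _ _ _).2, conj_zero, mul_zero',
        add_zero]
      simp
    · have ih := ev_rst_snd hx j u hc.1 hm.1 hju (fun i hi => hmax i (by simp [hi])) hu
      have e1 : del j (u * v) = del j u * v := by simp [del_mul, hv, hju]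
      have e2 : dlt j (u * v) = - dlt j u := by simp [dlt_mul, hv, hju]
      have hf := ev_rst_fst (α := α) (γ := γ) j x u hm.1 hju
      rw [ev_mul, ev_rst_notMem j x v hjv, mulS_2, pS_1, pS_2, zero_mul', zero_add, ih, e1, e2,
        ev_mul, hx v hm.2.1, (mul_smul' _ _ _ _ _ _).2, mul_neg', smul_neg]
      push_cast
      rw [neg_smul]
    · have ih := ev_rst_snd hx j v hc.2.1 hm.2.1 hjv (fun i hi => hmax i (by simp [hi])) hv
      have e1 : del j (u * v) = u * del j v := by simp [del_mul, hv, hju]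
      have e2 : dlt j (u * v) = - dlt j v := by simp [dlt_mul, hv, hju]
      have hf := ev_rst_fst (α := α) (γ := γ) j x v hm.2.1 hjv
      rw [e1] at hdp
      have hma : ML (u * del j v) := hdp.2.2.1
      rw [ev_mul, ev_rst_notMem j x u hju, mulS_2, pS_1, pS_2, hf, conj_zero, mul_zero', add_zero,
        ih, e1, e2, ev_mul, (mul_smul' _ _ _ _ _ _).2, hx.anti hma, smul_neg]
      push_cast
      rw [neg_smul]

/-- twist with signs; `h = 1/2` -/
def tws {k : ℕ} (h θ : K) (σ : ℕ → ℤ) (x : ℕ → CD K k) : ℕ → CD K (k + 1) :=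
  fun i => pS (h • x i) ((h * θ * (σ i : K)) • x i)

theorem tws_mul {k : ℕ} {h θ a b : K} (hθ : θ * θ * γ (k + 2) = 1) {X Y : CD K k}
    (hY : conj k Y = -Y) (hXY : mul α γ k Y X = - mul α γ k X Y) :
    mul α γ (k + 1) (pS (h • X) ((h * θ * a) • X)) (pS (h • Y) ((h * θ * b) • Y)) =
      pS ((h * h * (1 + a * b)) • mul α γ k X Y) ((-(h * h * θ * (a + b))) • mul α γ k X Y) := by
  apply extS
  · rw [mulS_1, pS_1, pS_1, pS_1, pS_2, pS_2, conj_smul, hY, (mul_smul' _ _ _ _ _ _).1,
      (mul_smul' _ _ _ _ _ _).2, (mul_smul' _ _ _ _ _ _).1, (mul_smul' _ _ _ _ _ _).2, neg_mul',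
      hXY, neg_neg, smul_smul, smul_smul, smul_smul, ← add_smul]
    congr 1
    linear_combination (h * h * a * b) * hθ
  · rw [mulS_2, pS_1, pS_1, pS_2, pS_2, pS_2, conj_smul, hY, (mul_smul' _ _ _ _ _ _).1,
      (mul_smul' _ _ _ _ _ _).2, (mul_smul' _ _ _ _ _ _).1, (mul_smul' _ _ _ _ _ _).2, mul_neg',
      hXY, smul_neg, smul_neg, smul_neg, smul_neg, smul_smul, smul_smul, ← neg_smul, ← neg_smul,
      ← add_smul]
    congr 1
    ring

theorem ev_tws {k : ℕ} {x : ℕ → CD K k} (hx : Good α γ k x) {h θ : K} (hh : h + h = 1)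
    (hθ : θ * θ * γ (k + 2) = 1) (σ : ℕ → ℤ) (hσ : ∀ i, σ i = 1 ∨ σ i = -1) :
    ∀ w : FreeMagma ℕ, ML w →
    (∀ ρ : ℤ, (ρ = 1 ∨ ρ = -1) → (∀ i ∈ letters w, σ i = ρ * dep i w) →
      ev α γ (k + 1) (tws h θ σ x) w =
        pS (h • ev α γ k x w) ((h * θ * (ρ : K)) • ev α γ k x w)) ∧
    ((∀ ρ : ℤ, (ρ = 1 ∨ ρ = -1) → ¬ ∀ i ∈ letters w, σ i = ρ * dep i w) →
      ev α γ (k + 1) (tws h θ σ x) w = 0)
  | .of i, _ => by
    constructor
    · intro ρ _ H
      have h1 : σ i = ρ := by simpa [dep] using H i (by simp)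
      change tws h θ σ x i = pS (h • x i) ((h * θ * (ρ : K)) • x i)
      rw [tws, h1]
    · intro H
      exact absurd (fun a ha => by
        have : a = i := by simpa using ha
        simp [this, dep]) (H (σ i) (hσ i))
  | .mul u v, hm => by
    simp only [FreeMagma.mul_eq] at *
    have ihu := ev_tws hx hh hθ σ hσ u hm.1
    have ihv := ev_tws hx hh hθ σ hσ v hm.2.1
    have hY := hx v hm.2.1
    have hXY := hx.anti hm
    have hdu : ∀ i ∈ letters u, dep i (u * v) = - dep i u := fun i hi => by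
      simp [dep_mul, hi]
    have hdv : ∀ i ∈ letters v, dep i (u * v) = - dep i v := fun i hi => by
      have : i ∉ letters u := fun h' => Finset.disjoint_left.1 hm.2.2 h' hi
      simp [dep_mul, hi, this]
    constructor
    · intro ρ hρ H
      have e1 := ihu.1 (-ρ) (by omega) (fun i hi => by
        rw [H i (by simp [hi]), hdu i hi]; ring)
      have e2 := ihv.1 (-ρ) (by omega) (fun i hi => by
        rw [H i (by simp [hi]), hdv i hi]; ring)
      rw [ev_mul, e1, e2, tws_mul hθ hY hXY, ev_mul]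
      have h2 : ((ρ : ℤ) : K) * (ρ : ℤ) = 1 := by
        rcases hρ with h | h <;> rw [h] <;> norm_num
      congr 1
      · congr 1
        push_cast
        linear_combination (h * h) * h2 + h * hh
      · congr 1
        push_cast
        linear_combination (h * θ * ρ) * hh
    · intro H
      rw [ev_mul]
      by_cases hu : ∃ ρ : ℤ, (ρ = 1 ∨ ρ = -1) ∧ ∀ i ∈ letters u, σ i = ρ * dep i u
      · by_cases hv : ∃ ρ : ℤ, (ρ = 1 ∨ ρ = -1) ∧ ∀ i ∈ letters v, σ i = ρ * dep i v
        · obtain ⟨ρ₁, h1, h1'⟩ := hu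
          obtain ⟨ρ₂, h2, h2'⟩ := hv
          have hne : ρ₁ ≠ ρ₂ := by
            rintro rfl
            refine H (-ρ₁) (by omega) (fun i hi => ?_)
            simp only [letters_mul, Finset.mem_union] at hi
            rcases hi with hi | hi
            · rw [hdu i hi, h1' i hi]; ring
            · rw [hdv i hi, h2' i hi]; ring
          have hs : ρ₂ = -ρ₁ := by omega
          rw [ihu.1 ρ₁ h1 h1', ihv.1 ρ₂ h2 h2', tws_mul hθ hY hXY]
          have h3 : ((ρ₁ : ℤ) : K) * (ρ₁ : ℤ) = 1 := by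
            rcases h1 with h | h <;> rw [h] <;> norm_num
          rw [hs]
          push_cast
          have c1 : h * h * (1 + (ρ₁ : K) * -(ρ₁ : K)) = 0 := by
            linear_combination (-(h * h)) * h3
          have c2 : -(h * h * θ * ((ρ₁ : K) + -(ρ₁ : K))) = 0 := by ring
          rw [c1, c2, zero_smul]
          rfl
        · push Not at hv
          have := ihv.2 (fun ρ hρ hc => by
            obtain ⟨i, hi, hi'⟩ := hv ρ hρ
            exact hi' (hc i hi))
          rw [this, mul_zero']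
      · push Not at hu
        have := ihu.2 (fun ρ hρ hc => by
            obtain ⟨i, hi, hi'⟩ := hu ρ hρ
            exact hi' (hc i hi))
        rw [this, zero_mul']

theorem Good.tws {k : ℕ} {x : ℕ → CD K k} (hx : Good α γ k x) {h θ : K} (hh : h + h = 1)
    (hθ : θ * θ * γ (k + 2) = 1) (σ : ℕ → ℤ) (hσ : ∀ i, σ i = 1 ∨ σ i = -1) :
    Good α γ (k + 1) (tws h θ σ x) := by
  intro w hw
  have e := ev_tws hx hh hθ σ hσ w hw
  by_cases H : ∃ ρ : ℤ, (ρ = 1 ∨ ρ = -1) ∧ ∀ i ∈ letters w, σ i = ρ * dep i w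
  · obtain ⟨ρ, h1, h2⟩ := H
    rw [e.1 ρ h1 h2]
    apply extS
    · rw [conjS_1, negS_1, pS_1, conj_smul, hx w hw, smul_neg]
    · rw [conjS_2, negS_2]
  · push Not at H
    rw [e.2 (fun ρ hρ hc => by
      obtain ⟨i, hi, hi'⟩ := H ρ hρ
      exact hi' (hc i hi)), conj_zero, neg_zero]

end

end Pool.Agent.KS6_17.CD
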