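import Mathlib
import Pool.Agent.KS6_17.CD.Eval

/-!
# Linear independence of the canonical words on the Cayley-Dickson algebras
-/

set_option autoImplicit false

namespace Pool.Agent.KS6_17.CD

open Pool.Agent.Results.MP_68720f_al.NotAdmissible

section

variable {F K : Type} [Field F] [Field K] (φ : F →+* K) {α : K} {γ : ℕ → K}

/-- the first component -/
def P1 (K : Type) [Field K] (k : ℕ) : CD K (k + 1) →+ CD K k :=
  ⟨⟨fun x => x.1, zeroS_1⟩, fun x y => addS_1 x y⟩

/-- the second component -/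
def P2 (K : Type) [Field K] (k : ℕ) : CD K (k + 1) →+ CD K k :=
  ⟨⟨fun x => x.2, zeroS_2⟩, fun x y => addS_2 x y⟩

theorem P1_apply {k : ℕ} (x : CD K (k + 1)) : P1 K k x = x.1 := rfl
theorem P2_apply {k : ℕ} (x : CD K (k + 1)) : P2 K k x = x.2 := rfl
theorem P1_smul {k : ℕ} (c : K) (x : CD K (k + 1)) : P1 K k (c • x) = c • P1 K k x := smulS_1 c x
theorem P2_smul {k : ℕ} (c : K) (x : CD K (k + 1)) : P2 K k (c • x) = c • P2 K k x := smulS_2 c x

open Classical in
/-- separation of the words by the parities of the depths of their letters -/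
theorem split {k : ℕ} {h θ : K} (hh : h + h = 1) (hθ : θ * θ * γ (k + 2) = 1) {ι : Type}
    (T : Finset ι) (w : ι → FreeMagma ℕ) (c : ι → F) (L : Finset ℕ)
    (hw : ∀ t ∈ T, ML (w t) ∧ letters (w t) = L)
    (H : ∀ x, Good α γ (k + 1) x → ∑ t ∈ T, φ (c t) • ev α γ (k + 1) x (w t) = 0)
    (σ : ℕ → ℤ) (hσ : ∀ i, σ i = 1 ∨ σ i = -1) (x : ℕ → CD K k) (hx : Good α γ k x) :
    ∑ t ∈ T.filter (fun t => ∀ i ∈ L, σ i = dep i (w t)), φ (c t) • ev α γ k x (w t) = 0 := by
  have hθ0 : θ ≠ 0 := by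
    rintro rfl
    simp at hθ
  have h0 := H _ (hx.tws hh hθ σ hσ)
  have e1' : ∑ t ∈ T, φ (c t) • P1 K k (ev α γ (k + 1) (tws h θ σ x) (w t)) = 0 := by
    have := congrArg (P1 K k) h0
    rw [map_sum, map_zero] at this
    exact this
  have e2' : ∑ t ∈ T, φ (c t) • P2 K k (ev α γ (k + 1) (tws h θ σ x) (w t)) = 0 := by
    have := congrArg (P2 K k) h0
    rw [map_sum, map_zero] at this
    exact this
  have key : ∀ t ∈ T, θ • P1 K k (ev α γ (k + 1) (tws h θ σ x) (w t)) +
      P2 K k (ev α γ (k + 1) (tws h θ σ x) (w t)) =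
      if ∀ i ∈ L, σ i = dep i (w t) then θ • ev α γ k x (w t) else 0 := by
    intro t ht
    obtain ⟨hml, hl⟩ := hw t ht
    have e := ev_tws hx hh hθ σ hσ (w t) hml
    by_cases h1 : ∀ i ∈ L, σ i = dep i (w t)
    · rw [if_pos h1, e.1 1 (Or.inl rfl) (by rw [hl]; simpa using h1), P1_apply, P2_apply, pS_1,
        pS_2, smul_smul, ← add_smul]
      congr 1
      push_cast
      linear_combination θ * hh
    · rw [if_neg h1]
      by_cases h2 : ∀ i ∈ L, σ i = -1 * dep i (w t)
      · rw [e.1 (-1) (Or.inr rfl) (by rw [hl]; exact h2), P1_apply, P2_apply, pS_1, pS_2,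
          smul_smul, ← add_smul]
        have : θ * h + h * θ * ((-1 : ℤ) : K) = 0 := by push_cast; ring
        rw [this, zero_smul]
      · rw [e.2 (fun ρ hρ hc => by
          rw [hl] at hc
          rcases hρ with rfl | rfl
          · exact h1 (by simpa using hc)
          · exact h2 hc), map_zero, map_zero, smul_zero, add_zero]
  have hsum : θ • ∑ t ∈ T.filter (fun t => ∀ i ∈ L, σ i = dep i (w t)),
      φ (c t) • ev α γ k x (w t) = 0 := by
    have e3 : ∑ t ∈ T, φ (c t) • (θ • P1 K k (ev α γ (k + 1) (tws h θ σ x) (w t)) +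
        P2 K k (ev α γ (k + 1) (tws h θ σ x) (w t))) = 0 := by
      calc _ = θ • ∑ t ∈ T, φ (c t) • P1 K k (ev α γ (k + 1) (tws h θ σ x) (w t)) +
          ∑ t ∈ T, φ (c t) • P2 K k (ev α γ (k + 1) (tws h θ σ x) (w t)) := by
            rw [Finset.smul_sum, ← Finset.sum_add_distrib]
            refine Finset.sum_congr rfl fun t _ => ?_
            rw [smul_add, smul_comm]
        _ = 0 := by rw [e1', e2', smul_zero, add_zero]
    rw [Finset.sum_filter, Finset.smul_sum]
    refine Eq.trans (Finset.sum_congr rfl fun t ht => ?_) e3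
    rw [key t ht]
    split_ifs
    · rw [smul_comm]
    · simp
  exact (smul_eq_zero.mp hsum).resolve_left hθ0

theorem ev_zero {k : ℕ} : ∀ w : FreeMagma ℕ, ev α γ k (fun _ => (0 : CD K k)) w = 0
  | .of _ => rfl
  | .mul u v => by
    simp only [FreeMagma.mul_eq]
    rw [ev_mul, ev_zero u, zero_mul']

theorem good_zero {k : ℕ} : Good α γ k (fun _ => (0 : CD K k)) := by
  intro w _
  rw [ev_zero, conj_zero, neg_zero]

open Classical in
/-- the induction, for words with the same parities of depths -/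
theorem main_hom (hK : ∀ c : K, ∃ d, d * d = c) {h : K} (hh : h + h = 1) : ∀ (m k : ℕ),
    2 * m + 1 ≤ k → (∀ i, 2 ≤ i → i ≤ k + 1 → γ i ≠ 0) → ∀ {ι : Type} (T : Finset ι)
    (w : ι → FreeMagma ℕ) (c : ι → F) (L : Finset ℕ) (d : ℕ → ℤ), L.card = m + 1 →
    (∀ t ∈ T, Can (w t) ∧ ML (w t) ∧ letters (w t) = L ∧ ∀ i ∈ L, dep i (w t) = d i) →
    Set.InjOn w T →
    (∀ x, Good α γ k x → ∑ t ∈ T, φ (c t) • ev α γ k x (w t) = 0) → ∀ t ∈ T, c t = 0 := by
  intro m
  induction m with
  | zero =>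
    intro k hk hγ ι T w c L d hL hw hinj H t ht
    obtain ⟨k, rfl⟩ : ∃ k', k = k' + 1 := ⟨k - 1, by omega⟩
    obtain ⟨j, rfl⟩ := Finset.card_eq_one.1 hL
    have hof : ∀ t ∈ T, w t = .of j := fun t ht => eq_of (hw t ht).2.1 (hw t ht).2.2.1
    have hT : T = {t} := by
      ext s
      constructor
      · intro hs
        rw [Finset.mem_singleton]
        exact hinj hs ht ((hof s hs).trans (hof t ht).symm)
      · intro hs
        rw [Finset.mem_singleton] at hs
        rw [hs]; exact ht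
    have h0 := H _ (good_zero.rst j)
    rw [hT, Finset.sum_singleton, hof t ht] at h0
    have : ev α γ (k + 1) (rst j (fun _ => (0 : CD K k))) (.of j) = pS 0 (one k) := by
      change rst j (fun _ => (0 : CD K k)) j = _
      simp [rst]
    rw [this] at h0
    have h1 := congrArg Prod.snd h0
    have h2 : φ (c t) • (one k : CD K k) = 0 := h1
    have h3 := (smul_eq_zero.mp h2).resolve_right (one_ne k)
    exact (map_eq_zero φ).1 h3
  | succ m ih =>
    intro k hk hγ ι T w c L d hL hw hinj H t₀ ht₀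
    obtain ⟨k, rfl⟩ : ∃ k', k = k' + 2 := ⟨k - 2, by omega⟩
    have hLne : L.Nonempty := by rw [← Finset.card_pos]; omega
    set j := L.max' hLne with hj
    have hjL : j ∈ L := L.max'_mem hLne
    have hmax : ∀ i ∈ L, i ≤ j := fun i hi => L.le_max' i hi
    have hne : ∀ t ∈ T, w t ≠ .of j := by
      intro t ht h
      have h1 := (hw t ht).2.2.1
      rw [h, letters_of] at h1
      rw [← h1, Finset.card_singleton] at hL
      omega
    have hd : ∀ t ∈ T, _ := fun t ht => del_props (w t) j (hw t ht).1 (hw t ht).2.1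
      (by rw [(hw t ht).2.2.1]; exact hjL) (by rw [(hw t ht).2.2.1]; exact hmax) (hne t ht)
    -- stage 1
    have H1 : ∀ x, Good α γ (k + 1) x →
        ∑ t ∈ T, φ (c t * (dlt j (w t) : ℤ)) • ev α γ (k + 1) x (del j (w t)) = 0 := by
      intro x hx
      have h1 : ∑ t ∈ T, φ (c t) • P2 K (k + 1) (ev α γ (k + 2) (rst j x) (w t)) = 0 := by
        have := congrArg (P2 K (k + 1)) (H _ (hx.rst j))
        rw [map_sum, map_zero] at this
        exact this
      refine Eq.trans (Finset.sum_congr rfl fun t ht => ?_) h1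
      rw [P2_apply, ev_rst_snd hx j (w t) (hw t ht).1 (hw t ht).2.1
        (by rw [(hw t ht).2.2.1]; exact hjL) (by rw [(hw t ht).2.2.1]; exact hmax) (hne t ht),
        smul_smul, map_mul, map_intCast]
    -- stage 2
    have hγk : γ (k + 2) ≠ 0 := hγ _ (by omega) (by omega)
    obtain ⟨θ, hθ⟩ := hK (γ (k + 2))⁻¹
    have hθ' : θ * θ * γ (k + 2) = 1 := by rw [hθ]; exact inv_mul_cancel₀ hγk
    set σ : ℕ → ℤ := fun i => dep i (del j (w t₀)) with hσ
    have hσ1 : ∀ i, σ i = 1 ∨ σ i = -1 := fun i => dep_sq i _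
    have H2 := split φ hh hθ' T (fun t => del j (w t)) (fun t => c t * (dlt j (w t) : ℤ))
      (L.erase j) (fun t ht => ⟨(hd t ht).2.2.1, by rw [(hd t ht).1, (hw t ht).2.2.1]⟩) H1 σ hσ1
    -- stage 3
    have hsib : ∀ t ∈ T.filter (fun t => ∀ i ∈ L.erase j, σ i = dep i (del j (w t))),
        sib j (w t) = (L.erase j).filter (fun i => d i = - σ i) := by
      intro t ht
      obtain ⟨ht, hts⟩ := Finset.mem_filter.1 ht
      obtain ⟨h1, h2, h3, h4, h5, h6, h7, h8⟩ := hd t ht
      ext i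
      rw [Finset.mem_filter]
      constructor
      · intro hi
        have hiL : i ∈ L.erase j := by
          have := h6 hi
          rwa [h1, (hw t ht).2.2.1] at this
        have hiL' := Finset.mem_erase.1 hiL
        refine ⟨hiL, ?_⟩
        have := (h8 i hiL'.1 (by rw [(hw t ht).2.2.1]; exact hiL'.2)).1 hi
        rw [← (hw t ht).2.2.2 i hiL'.2, this, hts i hiL]
      · rintro ⟨hiL, hi⟩
        have hiL' := Finset.mem_erase.1 hiL
        by_contra hcon
        have := (h8 i hiL'.1 (by rw [(hw t ht).2.2.1]; exact hiL'.2)).2 hcon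
        rw [(hw t ht).2.2.2 i hiL'.2, ← hts i hiL, hi] at this
        rcases hσ1 i with h | h <;> rw [h] at this <;> omega
    have key := ih k (by omega) (fun i h1 h2 => hγ i h1 (by omega))
      (T.filter (fun t => ∀ i ∈ L.erase j, σ i = dep i (del j (w t))))
      (fun t => del j (w t)) (fun t => c t * (dlt j (w t) : ℤ)) (L.erase j) σ
      (by rw [Finset.card_erase_of_mem hjL, hL]; omega)
      (by
        intro t ht
        obtain ⟨ht, hts⟩ := Finset.mem_filter.1 ht
        exact ⟨(hd t ht).2.1, (hd t ht).2.2.1, by rw [(hd t ht).1, (hw t ht).2.2.1],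
          fun i hi => (hts i hi).symm⟩)
      (by
        intro t ht s hs hts
        have ht' := Finset.mem_coe.1 ht
        have hs' := Finset.mem_coe.1 hs
        have e1 := hsib t ht'
        have e2 := hsib s hs'
        have ht1 := (Finset.mem_filter.1 ht').1
        have hs1 := (Finset.mem_filter.1 hs').1
        apply hinj ht1 hs1
        have e3 := (hd t ht1).2.2.2.2.2.2.1
        have e4 := (hd s hs1).2.2.2.2.2.2.1
        have hts' : del j (w t) = del j (w s) := hts
        rw [← e3, ← e4, e1, e2, hts'])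
      H2 t₀ (Finset.mem_filter.2 ⟨ht₀, fun i _ => rfl⟩)
    have hdl : ((dlt j (w t₀) : ℤ) : F) ≠ 0 := by
      rcases dlt_sq j (w t₀) with h | h <;> rw [h] <;> simp
    exact (mul_eq_zero.mp key).resolve_right hdl

open Classical in
/-- **Linear independence** of the canonical words with `m` letters at the levels `k ≥ 2 m`. -/
theorem main (hK : ∀ c : K, ∃ d, d * d = c) {h : K} (hh : h + h = 1) {m k : ℕ}
    (hmk : 2 * m ≤ k) (hγ : ∀ i, 2 ≤ i → i ≤ k + 1 → γ i ≠ 0) {ι : Type} (T : Finset ι)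
    (w : ι → FreeMagma ℕ) (c : ι → F) (L : Finset ℕ) (hL : L.card = m)
    (hw : ∀ t ∈ T, Can (w t) ∧ ML (w t) ∧ letters (w t) = L) (hinj : Set.InjOn w T)
    (H : ∀ x, Good α γ k x → ∑ t ∈ T, φ (c t) • ev α γ k x (w t) = 0) : ∀ t ∈ T, c t = 0 := by
  intro t₀ ht₀
  have hLpos : 0 < m := by
    rw [← hL, ← (hw t₀ ht₀).2.2]
    exact card_pos _
  obtain ⟨m, rfl⟩ : ∃ m', m = m' + 1 := ⟨m - 1, by omega⟩
  obtain ⟨k, rfl⟩ : ∃ k', k = k' + 1 := ⟨k - 1, by omega⟩
  have hγk : γ (k + 2) ≠ 0 := hγ _ (by omega) (by omega)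
  obtain ⟨θ, hθ⟩ := hK (γ (k + 2))⁻¹
  have hθ' : θ * θ * γ (k + 2) = 1 := by rw [hθ]; exact inv_mul_cancel₀ hγk
  set σ : ℕ → ℤ := fun i => dep i (w t₀) with hσ
  have hσ1 : ∀ i, σ i = 1 ∨ σ i = -1 := fun i => dep_sq i _
  have H2 := split φ hh hθ' T w c L (fun t ht => ⟨(hw t ht).2.1, (hw t ht).2.2⟩) H σ hσ1
  refine main_hom φ hK hh m k (by omega) (fun i h1 h2 => hγ i h1 (by omega))
    (T.filter (fun t => ∀ i ∈ L, σ i = dep i (w t))) w c L σ hL ?_ ?_ H2 t₀
    (Finset.mem_filter.2 ⟨ht₀, fun i _ => rfl⟩)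
  · intro t ht
    obtain ⟨ht, hts⟩ := Finset.mem_filter.1 ht
    exact ⟨(hw t ht).1, (hw t ht).2.1, (hw t ht).2.2, fun i hi => (hts i hi).symm⟩
  · exact hinj.mono (fun t ht => (Finset.mem_filter.1 (Finset.mem_coe.1 ht)).1)

end

end Pool.Agent.KS6_17.CD
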