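import Mathlib
import Pool.Agent.KS6_17.CD.Main

/-!
# An anticommutative algebra in the variety generated by a Cayley-Dickson algebra

`R` is the commutative algebra with generators `t_i` and relations `t_i ^ 2 = 0`.  The algebra
consists of the values of the nonassociative polynomials at `t_i x_i`, for all good tuples `x`.
-/

set_option autoImplicit false

namespace Pool.Agent.KS6_17.CD

open Pool.Agent.Results.MP_68720f_al.NotAdmissible

section Ring

variable (K : Type) [Field K]

/-- the ideal of the squares of the variables -/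
noncomputable def sqI : Ideal (MvPolynomial ℕ K) :=
  Ideal.span ((fun s => MvPolynomial.monomial s (1 : K)) '' (Set.range fun i : ℕ => Finsupp.single i 2))

/-- the commutative algebra `K[t_0, t_1, …] / (t_i ^ 2)` -/
def RR : Type := MvPolynomial ℕ K ⧸ sqI K

noncomputable instance : CommRing (RR K) := inferInstanceAs (CommRing (MvPolynomial ℕ K ⧸ sqI K))

/-- the quotient map -/
noncomputable def qq : MvPolynomial ℕ K →+* RR K := Ideal.Quotient.mk (sqI K)

theorem qq_eq_zero (p : MvPolynomial ℕ K) : qq K p = 0 ↔ p ∈ sqI K :=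
  Ideal.Quotient.eq_zero_iff_mem

/-- the generators -/
noncomputable def tt (i : ℕ) : RR K := qq K (MvPolynomial.X i)

theorem tt_sq (i : ℕ) : tt K i * tt K i = 0 := by
  rw [tt, ← map_mul, qq_eq_zero]
  apply Ideal.subset_span
  refine ⟨Finsupp.single i 2, ⟨i, rfl⟩, ?_⟩
  change MvPolynomial.monomial (Finsupp.single i 2) (1 : K) = _
  rw [← pow_two, MvPolynomial.X_pow_eq_monomial]

/-- the inclusion of the constants -/
noncomputable def cc : K →+* RR K := (qq K).comp MvPolynomial.C

theorem prod_ne (L : Finset ℕ) (c : K) (h : (∏ i ∈ L, tt K i) * cc K c = 0) : c = 0 := by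
  classical
  by_contra hc
  have h1 : qq K ((∏ i ∈ L, MvPolynomial.X i) * MvPolynomial.C c) = 0 := by
    rw [map_mul, map_prod]
    exact h
  rw [qq_eq_zero, sqI, MvPolynomial.mem_ideal_span_monomial_image] at h1
  have h2 : ((∏ i ∈ L, MvPolynomial.X i) * MvPolynomial.C c : MvPolynomial ℕ K) =
      MvPolynomial.monomial (∑ i ∈ L, Finsupp.single i 1) c := by
    have : (∏ i ∈ L, MvPolynomial.X i : MvPolynomial ℕ K) =
        MvPolynomial.monomial (∑ i ∈ L, Finsupp.single i 1) 1 := by
      rw [MvPolynomial.monomial_sum_one]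
      rfl
    rw [this, mul_comm, MvPolynomial.C_mul_monomial, mul_one]
  rw [h2] at h1
  obtain ⟨_, ⟨i, rfl⟩, hi⟩ := h1 (∑ i ∈ L, Finsupp.single i 1) (by
    rw [MvPolynomial.support_monomial, if_neg hc]; simp)
  have h3 := hi i
  rw [Finsupp.finset_sum_apply] at h3
  simp only [Finsupp.single_apply] at h3
  rw [Finset.sum_ite_eq'] at h3
  split_ifs at h3 <;> omega

theorem prod_smul_ne (L : Finset ℕ) (k : ℕ) (z : CD K k)
    (h : (∏ i ∈ L, tt K i) • cmap (cc K) k z = 0) : z = 0 := by
  induction k with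
  | zero =>
    apply ext0
    · rw [zero0_1]
      exact prod_ne K L z.1 (congrArg Prod.fst h)
    · rw [zero0_2]
      exact prod_ne K L z.2 (congrArg Prod.snd h)
  | succ k ih => exact extS (ih _ (congrArg Prod.fst h)) (ih _ (congrArg Prod.snd h))

/-- the product of the generators along a word -/
noncomputable def tw : FreeMagma ℕ → RR K
  | .of i => tt K i
  | .mul u v => tw u * tw v

theorem tw_mul (u v : FreeMagma ℕ) : tw K (u * v) = tw K u * tw K v := rfl

theorem tw_letter (i : ℕ) : ∀ w : FreeMagma ℕ, i ∈ letters w → ∃ r, tw K w = tt K i * r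
  | .of j, h => ⟨1, by simp at h; simp [tw, h]⟩
  | .mul u v, h => by
    simp only [FreeMagma.mul_eq, letters_mul, Finset.mem_union] at h ⊢
    rcases h with h | h
    · obtain ⟨r, hr⟩ := tw_letter i u h
      exact ⟨r * tw K v, by rw [tw_mul, hr]; ring⟩
    · obtain ⟨r, hr⟩ := tw_letter i v h
      exact ⟨tw K u * r, by rw [tw_mul, hr]; ring⟩

theorem tw_zero : ∀ w : FreeMagma ℕ, ¬ ML w → tw K w = 0
  | .of _, h => absurd trivial h
  | .mul u v, h => by
    simp only [FreeMagma.mul_eq, ML_mul] at h ⊢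
    rw [tw_mul]
    by_cases hu : ML u
    · by_cases hv : ML v
      · have hd : ¬ Disjoint (letters u) (letters v) := fun hd => h ⟨hu, hv, hd⟩
        rw [Finset.not_disjoint_iff] at hd
        obtain ⟨i, hi, hi'⟩ := hd
        obtain ⟨r, hr⟩ := tw_letter K i u hi
        obtain ⟨s, hs⟩ := tw_letter K i v hi'
        rw [hr, hs]
        linear_combination (r * s) * tt_sq K i
      · rw [tw_zero v hv, mul_zero]
    · rw [tw_zero u hu, zero_mul]

theorem tw_prod : ∀ w : FreeMagma ℕ, ML w → tw K w = ∏ i ∈ letters w, tt K i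
  | .of j, _ => by simp [tw]
  | .mul u v, h => by
    simp only [FreeMagma.mul_eq, ML_mul] at h ⊢
    rw [tw_mul, tw_prod u h.1, tw_prod v h.2.1, letters_mul, Finset.prod_union h.2.2]

end Ring

section Alg

variable {K : Type} [Field K] {α : K} {γ : ℕ → K}

theorem cmap_mul' (k : ℕ) (x y : CD K k) : cmap (cc K) k (mul α γ k x y) =
    mul (cc K α) (fun i => cc K (γ i)) k (cmap (cc K) k x) (cmap (cc K) k y) :=
  cmap_mul (cc K) rfl (fun _ => rfl) k x y

/-- the values of the words at `t_i x_i` -/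
theorem ev_tt (k : ℕ) (x : ℕ → CD K k) : ∀ w : FreeMagma ℕ,
    ev (cc K α) (fun i => cc K (γ i)) k (fun i => tt K i • cmap (cc K) k (x i)) w =
      tw K w • cmap (cc K) k (ev α γ k x w)
  | .of _ => rfl
  | .mul u v => by
    simp only [FreeMagma.mul_eq]
    rw [ev_mul, ev_tt k x u, ev_tt k x v, (mul_smul' _ _ _ _ _ _).1, (mul_smul' _ _ _ _ _ _).2,
      smul_smul, ev_mul, cmap_mul', tw_mul, mul_comm (tw K v)]

theorem csmul_neg {R : Type} [CommRing R] {k : ℕ} (c : R) (x : CD R k) : c • (-x) = -(c • x) :=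
  smul_neg c x

theorem czero_smul {R : Type} [CommRing R] {k : ℕ} (x : CD R k) : (0 : R) • x = 0 :=
  zero_smul R x

theorem ev_tt_anti (k : ℕ) {x : ℕ → CD K k} (hx : Good α γ k x) (u v : FreeMagma ℕ) :
    mul (cc K α) (fun i => cc K (γ i)) k
      (ev (cc K α) (fun i => cc K (γ i)) k (fun i => tt K i • cmap (cc K) k (x i)) v)
      (ev (cc K α) (fun i => cc K (γ i)) k (fun i => tt K i • cmap (cc K) k (x i)) u) =
    - mul (cc K α) (fun i => cc K (γ i)) k
      (ev (cc K α) (fun i => cc K (γ i)) k (fun i => tt K i • cmap (cc K) k (x i)) u)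
      (ev (cc K α) (fun i => cc K (γ i)) k (fun i => tt K i • cmap (cc K) k (x i)) v) := by
  rw [ev_tt, ev_tt, (mul_smul' _ _ _ _ _ _).1, (mul_smul' _ _ _ _ _ _).2, smul_smul,
    (mul_smul' _ _ _ _ _ _).1, (mul_smul' _ _ _ _ _ _).2, smul_smul, ← cmap_mul', ← cmap_mul']
  by_cases h : ML (u * v)
  · rw [hx.anti h, cmap_neg, csmul_neg, mul_comm (tw K v)]
  · have h1 := tw_zero K _ h
    rw [tw_mul] at h1
    rw [h1, mul_comm (tw K v), h1, czero_smul, czero_smul, neg_zero]

end Alg

end Pool.Agent.KS6_17.CD
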