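import Mathlib
import Pool.Agent.KS6_17.CD.Alg

/-!
# The algebra of the good tuples
-/

set_option autoImplicit false

namespace Pool.Agent.KS6_17.CD

open Pool.Agent.Results.MP_68720f_al.NotAdmissible

section

variable (F K : Type) [Field F] [Field K] [Algebra F K] (α : F) (γ : ℕ → F) (k : ℕ)

/-- the structure map -/
noncomputable def fR : F →+* RR K := (cc K).comp (algebraMap F K)

/-- the Cayley-Dickson algebra over `RR K` -/
def AR : Type := CDAlg (R := RR K) (cc K (algebraMap F K α))
  (fun i => cc K (algebraMap F K (γ i))) k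

noncomputable instance : NonUnitalNonAssocRing (AR F K α γ k) :=
  inferInstanceAs (NonUnitalNonAssocRing (CDAlg (R := RR K) (cc K (algebraMap F K α))
    (fun i => cc K (algebraMap F K (γ i))) k))

noncomputable instance modR : Module (RR K) (AR F K α γ k) :=
  inferInstanceAs (Module (RR K) (CDAlg (R := RR K) (cc K (algebraMap F K α))
    (fun i => cc K (algebraMap F K (γ i))) k))

instance : IsScalarTower (RR K) (AR F K α γ k) (AR F K α γ k) :=
  inferInstanceAs (IsScalarTower (RR K) (CDAlg (R := RR K) (cc K (algebraMap F K α))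
    (fun i => cc K (algebraMap F K (γ i))) k) (CDAlg (R := RR K) (cc K (algebraMap F K α))
    (fun i => cc K (algebraMap F K (γ i))) k))

instance : SMulCommClass (RR K) (AR F K α γ k) (AR F K α γ k) :=
  inferInstanceAs (SMulCommClass (RR K) (CDAlg (R := RR K) (cc K (algebraMap F K α))
    (fun i => cc K (algebraMap F K (γ i))) k) (CDAlg (R := RR K) (cc K (algebraMap F K α))
    (fun i => cc K (algebraMap F K (γ i))) k))

noncomputable instance modF : Module F (AR F K α γ k) := Module.compHom _ (fR F K)

theorem smulF (c : F) (x : AR F K α γ k) : c • x = fR F K c • x := rfl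

instance : IsScalarTower F (AR F K α γ k) (AR F K α γ k) :=
  ⟨fun c x y => by
    simp only [smul_eq_mul, smulF, smul_mul_assoc]⟩

instance : SMulCommClass F (AR F K α γ k) (AR F K α γ k) :=
  ⟨fun c x y => by
    simp only [smul_eq_mul, smulF, mul_smul_comm]⟩

/-- the good tuples -/
def GoodT : Type := {x : ℕ → CD K k // Good (algebraMap F K α) (fun i => algebraMap F K (γ i)) k x}

/-- the generators -/
noncomputable def YY (i : ℕ) : GoodT F K α γ k → AR F K α γ k :=
  fun x => (tt K i • cmap (cc K) k (x.1 i) : CD (RR K) k)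

theorem YY_word (x : GoodT F K α γ k) (w : FreeMagma ℕ) :
    (FreeMagma.lift (YY F K α γ k) w) x =
      (ev (cc K (algebraMap F K α)) (fun i => cc K (algebraMap F K (γ i))) k
        (fun i => tt K i • cmap (cc K) k (x.1 i)) w : CD (RR K) k) := by
  induction w with
  | ih1 i => rfl
  | ih2 a b ha hb =>
    rw [map_mul, Pi.mul_apply, ha, hb]
    rfl

theorem YY_anti (u v : FreeMagma ℕ) :
    FreeMagma.lift (YY F K α γ k) v * FreeMagma.lift (YY F K α γ k) u =
      -(FreeMagma.lift (YY F K α γ k) u * FreeMagma.lift (YY F K α γ k) v) := by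
  funext x
  rw [Pi.mul_apply, Pi.neg_apply, Pi.mul_apply, YY_word, YY_word]
  exact ev_tt_anti k x.2 u v

/-- the algebra generated by the generators -/
noncomputable def CC : NonUnitalSubalgebra F (GoodT F K α γ k → AR F K α γ k) :=
  NonUnitalAlgHom.range (FreeNonUnitalNonAssocAlgebra.lift F (YY F K α γ k))

theorem CC_anti (a b : CC F K α γ k) : a * b = -(b * a) := by
  obtain ⟨a, f, rfl⟩ := a
  obtain ⟨b, g, rfl⟩ := b
  apply Subtype.ext
  change FreeNonUnitalNonAssocAlgebra.lift F (YY F K α γ k) f *
      FreeNonUnitalNonAssocAlgebra.lift F (YY F K α γ k) g =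
    -(FreeNonUnitalNonAssocAlgebra.lift F (YY F K α γ k) g *
      FreeNonUnitalNonAssocAlgebra.lift F (YY F K α γ k) f)
  rw [lift_eq_sum, lift_eq_sum, Finset.sum_mul_sum, Finset.sum_mul_sum, Finset.sum_comm,
    ← Finset.sum_neg_distrib]
  refine Finset.sum_congr rfl fun u _ => ?_
  rw [← Finset.sum_neg_distrib]
  refine Finset.sum_congr rfl fun v _ => ?_
  rw [smul_mul_smul_comm, smul_mul_smul_comm, YY_anti, smul_neg, mul_comm]

theorem CC_sq (h2 : (2 : F) ≠ 0) (a : CC F K α γ k) : a * a = 0 := by
  have h1 : (2 : F) • (a * a) = 0 := by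
    rw [two_smul]
    nth_rw 2 [CC_anti]
    rw [add_neg_cancel]
  exact (smul_eq_zero.mp h1).resolve_left h2

/-- naturality of the evaluation -/
theorem map_lift {A B : Type} [NonUnitalNonAssocRing A] [Module F A] [IsScalarTower F A A]
    [SMulCommClass F A A] [NonUnitalNonAssocRing B] [Module F B] [IsScalarTower F B B]
    [SMulCommClass F B B] (g : A →ₙₐ[F] B) (v : ℕ → A) (f : FreeNonUnitalNonAssocAlgebra F ℕ) :
    g (FreeNonUnitalNonAssocAlgebra.lift F v f) =
      FreeNonUnitalNonAssocAlgebra.lift F (fun i => g (v i)) f := by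
  have : g.comp (FreeNonUnitalNonAssocAlgebra.lift F v) =
      FreeNonUnitalNonAssocAlgebra.lift F (fun i => g (v i)) := by
    apply FreeNonUnitalNonAssocAlgebra.hom_ext
    intro i
    simp
  exact DFunLike.congr_fun this f

theorem word_AR (v : ℕ → AR F K α γ k) (w : FreeMagma ℕ) : FreeMagma.lift v w =
    (ev (cc K (algebraMap F K α)) (fun i => cc K (algebraMap F K (γ i))) k v w : CD (RR K) k) := by
  induction w with
  | ih1 i => rfl
  | ih2 a b ha hb =>
    rw [map_mul, ha, hb]
    rfl

theorem identity_AR [Infinite F] (f : FreeNonUnitalNonAssocAlgebra F ℕ)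
    (hf : IsIdentity F (CDAlg α γ k) f) : IsIdentity F (AR F K α γ k) f := by
  intro v
  letI : Algebra F (RR K) := (fR F K).toAlgebra
  have key := transfer (K := RR K) α γ k f.coeff (fun u => by
    have := (lift_eq_sum (A := CDAlg α γ k) u f).symm.trans (hf u)
    simp only [lift_eq_ev α γ k u] at this
    exact this) v
  rw [lift_eq_sum]
  refine Eq.trans ?_ key
  rw [evP]
  refine Finset.sum_congr rfl fun w _ => ?_
  rw [word_AR]
  rfl

/-- the evaluation at a good tuple -/
def evH (x : GoodT F K α γ k) : (GoodT F K α γ k → AR F K α γ k) →ₙₐ[F] AR F K α γ k where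
  toFun a := a x
  map_smul' _ _ := rfl
  map_zero' := rfl
  map_add' _ _ := rfl
  map_mul' _ _ := rfl

theorem identity_CC [Infinite F] (f : FreeNonUnitalNonAssocAlgebra F ℕ)
    (hf : IsIdentity F (CDAlg α γ k) f) : IsIdentity F (CC F K α γ k) f := by
  intro v
  apply Subtype.ext
  have e1 := map_lift F (NonUnitalSubalgebraClass.subtype (CC F K α γ k)) v f
  change NonUnitalSubalgebraClass.subtype (CC F K α γ k) _ = 0
  rw [e1]
  funext x
  have e2 := map_lift F (evH F K α γ k x)
    (fun i => NonUnitalSubalgebraClass.subtype (CC F K α γ k) (v i)) f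
  refine e2.trans ?_
  exact identity_AR F K α γ k f hf _

/-- the generators, as elements of the algebra -/
noncomputable def gen (i : ℕ) : CC F K α γ k :=
  ⟨YY F K α γ k i, ⟨FreeNonUnitalNonAssocAlgebra.of F i,
    FreeNonUnitalNonAssocAlgebra.lift_of_apply F _ _⟩⟩

theorem of_identity_CC (f : FreeNonUnitalNonAssocAlgebra F ℕ)
    (L : Finset ℕ) (hL : ∀ w ∈ f.coeff.support, ML w ∧ letters w = L)
    (hf : IsIdentity F (CC F K α γ k) f) (x : ℕ → CD K k)
    (hx : Good (algebraMap F K α) (fun i => algebraMap F K (γ i)) k x) :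
    ∑ w ∈ f.coeff.support, algebraMap F K (f.coeff w) •
      ev (algebraMap F K α) (fun i => algebraMap F K (γ i)) k x w = 0 := by
  have h1 := congrArg (NonUnitalSubalgebraClass.subtype (CC F K α γ k)) (hf (gen F K α γ k))
  rw [map_lift, map_zero] at h1
  have h2 : FreeNonUnitalNonAssocAlgebra.lift F (YY F K α γ k) f = 0 := h1
  have h3 := congrArg (evH F K α γ k ⟨x, hx⟩) h2
  rw [lift_eq_sum, map_sum, map_zero] at h3
  apply prod_smul_ne K L k
  let T : CD K k →+ CD (RR K) k := ⟨⟨cmap (cc K) k, cmap_zero _ k⟩, cmap_add _ k⟩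
  change (∏ i ∈ L, tt K i) • T _ = 0
  rw [map_sum, Finset.smul_sum]
  refine Eq.trans (Finset.sum_congr rfl fun w hw => ?_) h3
  refine Eq.trans ?_ (map_smul (evH F K α γ k ⟨x, hx⟩) (f.coeff w)
    (FreeMagma.lift (YY F K α γ k) w)).symm
  have e : evH F K α γ k ⟨x, hx⟩ (FreeMagma.lift (YY F K α γ k) w) =
      (tw K w • cmap (cc K) k (ev (algebraMap F K α) (fun i => algebraMap F K (γ i)) k x w) :
        CD (RR K) k) := by
    rw [← ev_tt]
    exact YY_word F K α γ k ⟨x, hx⟩ w
  rw [e]
  change (∏ i ∈ L, tt K i) • cmap (cc K) k (algebraMap F K (f.coeff w) •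
      ev (algebraMap F K α) (fun i => algebraMap F K (γ i)) k x w) =
    (fR F K (f.coeff w) • (tw K w • cmap (cc K) k
      (ev (algebraMap F K α) (fun i => algebraMap F K (γ i)) k x w)) : CD (RR K) k)
  rw [cmap_smul, smul_smul, smul_smul, tw_prod K w (hL w hw).1, (hL w hw).2, mul_comm]
  rfl

end

section

/-- the letters of a word, with multiplicities -/
def lettersM : FreeMagma ℕ → Multiset ℕ
  | .of i => {i}
  | .mul u v => lettersM u + lettersM v

theorem letters_eq : ∀ w : FreeMagma ℕ, letters w = (lettersM w).toFinset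
  | .of i => by simp [lettersM]
  | .mul u v => by
    change letters u ∪ letters v = (lettersM u + lettersM v).toFinset
    rw [letters_eq u, letters_eq v, Multiset.toFinset_add]

theorem ML_iff : ∀ w : FreeMagma ℕ, ML w ↔ (lettersM w).Nodup
  | .of i => by simp [lettersM, ML]
  | .mul u v => by
    change ML u ∧ ML v ∧ Disjoint (letters u) (letters v) ↔ (lettersM u + lettersM v).Nodup
    rw [Multiset.nodup_add, ML_iff u, ML_iff v, letters_eq u, letters_eq v,
      Multiset.disjoint_toFinset]

/-- `f` is multilinear of degree `m`: for some set `L` of `m` letters every word of `f` contains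
each letter of `L` exactly once and no other letter. -/
def Multilinear (F : Type) [Field F] (m : ℕ) (f : FreeNonUnitalNonAssocAlgebra F ℕ) : Prop :=
  ∃ L : Finset ℕ, L.card = m ∧ ∀ w ∈ f.coeff.support, lettersM w = L.val

variable {F : Type} [Field F]

theorem can_lift {C : Type} [NonUnitalNonAssocRing C] [Module F C] [IsScalarTower F C C]
    [SMulCommClass F C C] (hC : ∀ x y : C, x * y = -(y * x)) (v : ℕ → C) :
    ∀ w : FreeMagma ℕ, FreeMagma.lift v w = ((sg w : ℤ) : F) • FreeMagma.lift v (can w)
  | .of i => by simp [sg, can]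
  | .mul a b => by
    simp only [FreeMagma.mul_eq]
    have ha := can_lift hC v a
    have hb := can_lift hC v b
    by_cases hlt : mn a < mn b
    · rw [can_mul, sg_mul, if_pos hlt, if_pos hlt, map_mul, map_mul, ha, hb, smul_mul_smul_comm]
      push_cast
      rfl
    · rw [can_mul, sg_mul, if_neg hlt, if_neg hlt, map_mul, map_mul, ha, hb, smul_mul_smul_comm,
        hC]
      push_cast
      rw [smul_neg, neg_smul]

theorem final {K : Type} [Field K] [Algebra F K] (hK : ∀ c : K, ∃ d, d * d = c)
    (h2 : (2 : K) ≠ 0) {α : F} {γ : ℕ → F} {m k : ℕ} (hmk : 2 * m ≤ k)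
    (hγ : ∀ i, 2 ≤ i → i ≤ k + 1 → γ i ≠ 0) (f : FreeNonUnitalNonAssocAlgebra F ℕ)
    (L : Finset ℕ) (hLm : L.card = m) (hL : ∀ w ∈ f.coeff.support, ML w ∧ letters w = L)
    (H : ∀ x, Good (algebraMap F K α) (fun i => algebraMap F K (γ i)) k x →
      ∑ w ∈ f.coeff.support, algebraMap F K (f.coeff w) •
      ev (algebraMap F K α) (fun i => algebraMap F K (γ i)) k x w = 0)
    {C : Type} [NonUnitalNonAssocRing C] [Module F C] [IsScalarTower F C C]
    [SMulCommClass F C C] (hC : ∀ x y : C, x * y = -(y * x)) : IsIdentity F C f := by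
  classical
  intro v
  set S := f.coeff.support with hS
  have hmaps : ∀ w ∈ S, can w ∈ S.image can := fun w hw => Finset.mem_image_of_mem _ hw
  let g : FreeMagma ℕ → F := fun r => ∑ w ∈ S with can w = r, f.coeff w * ((sg w : ℤ) : F)
  have hg : ∀ r ∈ S.image can, g r = 0 := by
    refine main (algebraMap F K) (α := algebraMap F K α) (h := 2⁻¹) hK (by rw [← two_mul]; exact mul_inv_cancel₀ h2) hmk
      (γ := fun i => algebraMap F K (γ i))
      (fun i h1 h2 => by
        rw [Ne, map_eq_zero]; exact hγ i h1 h2) (S.image can) id g L hLm ?_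
      Function.injective_id.injOn ?_
    · intro r hr
      obtain ⟨w, hw, rfl⟩ := Finset.mem_image.1 hr
      obtain ⟨h1, h2, h3, h4⟩ := can_props w (hL w hw).1
      exact ⟨h3, h4, h1.trans (hL w hw).2⟩
    · intro x hx
      refine Eq.trans ?_ (H x hx)
      rw [← Finset.sum_fiberwise_of_maps_to hmaps]
      refine Finset.sum_congr rfl fun r _ => ?_
      simp only [g, id]
      rw [map_sum, Finset.sum_smul]
      refine Finset.sum_congr rfl fun w hw => ?_
      obtain ⟨hw1, hw2⟩ := Finset.mem_filter.1 hw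
      rw [hx.can_ev w (hL w hw1).1, hw2, smul_smul, map_mul, map_intCast]
  rw [lift_eq_sum, ← hS, ← Finset.sum_fiberwise_of_maps_to hmaps]
  refine Finset.sum_eq_zero fun r hr => ?_
  have := hg r hr
  calc _ = g r • FreeMagma.lift v r := by
        simp only [g]
        rw [Finset.sum_smul]
        refine Finset.sum_congr rfl fun w hw => ?_
        obtain ⟨hw1, hw2⟩ := Finset.mem_filter.1 hw
        rw [can_lift (F := F) hC v w, hw2, smul_smul]
    _ = 0 := by rw [this, zero_smul]

end

end Pool.Agent.KS6_17.CD
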